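import Pool.Agent.Lib.MP_90732c_al.Ab.Defs
import Pool.Agent.Lib.MP_90732c_al.FdBase

/-! PAR: infinitely many parallel edges between two classes of `B`. -/

set_option autoImplicit false

open MeasureTheory
open scoped ENNReal Pointwise

namespace Pool.Agent.Lib.MP_90732c_al.Cx.H31

open Pool.Agent.Lib.MP_90732c_al.Ab

variable {G : Type} [Group G] {Z : Type} [MulAction G Z]

/-- The equivalence of positions. -/
def posSetoid {S : Z → G → Prop} (hS : IsRel S) (z : Z) : Setoid G where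
  r h h' := S (h⁻¹ • z) (h'⁻¹ * h)
  iseqv := by
    refine ⟨fun h => ?_, fun {h h'} h1 => ?_, fun {h h' h''} h1 h2 => ?_⟩
    · rw [inv_mul_cancel]
      exact hS.one _
    · have h2 := hS.inv _ _ h1
      rw [smul_smul, mul_assoc, mul_inv_cancel, mul_one, mul_inv_rev, inv_inv] at h2
      exact h2
    · have h3 : (h'⁻¹ * h) • h⁻¹ • z = h'⁻¹ • z := by
        rw [smul_smul, mul_assoc, mul_inv_cancel, mul_one]
      have h4 := hS.mul _ _ _ h1 (by rw [h3]; exact h2)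
      rwa [mul_assoc, mul_inv_cancel_left] at h4

/-- The parallel edges. -/
def parl (S : Z → G → Prop) (μ : G) (z : Z) : Set G :=
  {h | S z h ∧ S (μ • z) (μ * h * μ⁻¹)}

lemma finite_classes {S : Z → G → Prop} (hS : IsRel S) (B : Set Z) (M : ℕ) (z : Z)
    (hM : ∀ s : Finset G, (∀ h ∈ s, h⁻¹ • z ∈ B) →
      (∀ h ∈ s, ∀ h' ∈ s, S (h⁻¹ • z) (h'⁻¹ * h) → h = h') → s.card ≤ M) :
    {c : Quotient (posSetoid hS z) | ∃ h : G, h⁻¹ • z ∈ B ∧ Quotient.mk _ h = c}.Finite := by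
  classical
  by_contra hinf
  obtain ⟨t, ht1, ht2⟩ := Set.Infinite.exists_subset_card_eq hinf (M + 1)
  have h1 : ∀ c : Quotient (posSetoid hS z), ∃ h : G, c ∈ t → h⁻¹ • z ∈ B ∧
      Quotient.mk (posSetoid hS z) h = c := by
    intro c
    by_cases hc : c ∈ t
    · obtain ⟨h, h2⟩ := ht1 hc
      exact ⟨h, fun _ => h2⟩
    · exact ⟨1, fun h => absurd h hc⟩
  choose f hf using h1
  have hinj : Set.InjOn f t := by
    intro c hc c' hc' h2
    rw [← (hf c hc).2, ← (hf c' hc').2, h2]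
  have h2 := hM (t.image f) (by
    intro h hh
    obtain ⟨c, hc, rfl⟩ := Finset.mem_image.1 hh
    exact (hf c hc).1) (by
    intro h hh h' hh' h3
    obtain ⟨c, hc, rfl⟩ := Finset.mem_image.1 hh
    obtain ⟨c', hc', rfl⟩ := Finset.mem_image.1 hh'
    have h4 : Quotient.mk (posSetoid hS z) (f c) = Quotient.mk (posSetoid hS z) (f c') :=
      Quotient.sound h3
    rw [(hf c hc).2, (hf c' hc').2] at h4
    rw [h4])
  rw [Finset.card_image_of_injOn hinj, ht2] at h2
  omega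

/-- **PAR.** -/
theorem par [Countable G] [Infinite G] [MeasurableSpace Z] {ν : Measure Z}
    [IsProbabilityMeasure ν] (hν : ∀ g : G, MeasurePreserving (fun z : Z => g • z) ν ν)
    {S : Z → G → Prop} (hS : IsRel S) (hSm : ∀ g, MeasurableSet {z | S z g}) (B : Set Z)
    (hB : MeasurableSet B) (M : ℕ)
    (hM : ∀ᵐ z ∂ν, ∀ s : Finset G, (∀ h ∈ s, h⁻¹ • z ∈ B) →
      (∀ h ∈ s, ∀ h' ∈ s, S (h⁻¹ • z) (h'⁻¹ * h) → h = h') → s.card ≤ M) (μ : G) :
    ∀ᵐ z ∂ν, z ∈ B → μ • z ∈ B →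
      {h | S z h ∧ S (μ • z) (μ * h * μ⁻¹)}.Infinite := by
  classical
  have hG : ∀ g : G, Measurable fun z : Z => g • z := fun g => (hν g).measurable
  have hHm : ∀ h, MeasurableSet {z | h ∈ parl S μ z} := by
    intro h
    exact (hSm h).inter ((hSm (μ * h * μ⁻¹)).preimage (hG μ))
  set Bad : Set Z := {z | z ∈ B ∧ μ • z ∈ B ∧ (parl S μ z).Finite} with hBad
  have hfinm : MeasurableSet {z | (parl S μ z).Finite} := by
    have h1 : {z | (parl S μ z).Finite} =
        ⋃ t : Finset G, ⋂ h : G, {z | h ∈ parl S μ z → h ∈ t} := by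
      ext z
      simp only [Set.mem_ofPred_eq, Set.mem_iUnion, Set.mem_iInter]
      constructor
      · intro h2
        exact ⟨h2.toFinset, fun h hh => h2.mem_toFinset.2 hh⟩
      · rintro ⟨t, ht⟩
        exact t.finite_toSet.subset fun h hh => ht h hh
    rw [h1]
    refine MeasurableSet.iUnion fun t => MeasurableSet.iInter fun h => ?_
    by_cases hh : h ∈ t
    · simp [hh]
    · simp only [hh, imp_false]
      exact (hHm h).compl
  have hBadm : MeasurableSet Bad := by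
    refine hB.inter (MeasurableSet.inter ?_ hfinm)
    exact hB.preimage (hG μ)
  have hae := Fd.ae_empty_or_infinite (G := G) (μ := ν) hν (fun z => {h : G | h⁻¹ • z ∈ Bad})
    (fun g => hBadm.preimage (hG g⁻¹)) (Filter.Eventually.of_forall fun z k g => by
      change (k * g)⁻¹ • k • z ∈ Bad ↔ g⁻¹ • z ∈ Bad
      rw [smul_smul, mul_inv_rev, mul_assoc, inv_mul_cancel, mul_one])
  filter_upwards [hae, hM] with z hz hMz hzB hμB
  rcases hz with hz | hz
  · by_contra hfin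
    have h1 : (1 : G) ∈ {h : G | h⁻¹ • z ∈ Bad} := by
      change (1 : G)⁻¹ • z ∈ Bad
      rw [inv_one, one_smul]
      exact ⟨hzB, hμB, Set.not_infinite.1 hfin⟩
    rw [hz] at h1
    exact h1
  · exfalso
    have hfin := finite_classes hS B M z hMz
    have : Infinite {h : G | h⁻¹ • z ∈ Bad} := hz.to_subtype
    have : Finite {c : Quotient (posSetoid hS z) | ∃ h : G, h⁻¹ • z ∈ B ∧
      Quotient.mk _ h = c} := hfin.to_subtype
    let F : {h : G | h⁻¹ • z ∈ Bad} → {c : Quotient (posSetoid hS z) | ∃ h : G,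
        h⁻¹ • z ∈ B ∧ Quotient.mk _ h = c} × {c : Quotient (posSetoid hS z) | ∃ h : G,
        h⁻¹ • z ∈ B ∧ Quotient.mk _ h = c} := fun h =>
      (⟨Quotient.mk _ h.1, h.1, h.2.1, rfl⟩, ⟨Quotient.mk _ (h.1 * μ⁻¹), h.1 * μ⁻¹, by
        have h1 := h.2.2.1
        rwa [mul_inv_rev, inv_inv, mul_smul], rfl⟩)
    obtain ⟨c, hc⟩ := Finite.exists_infinite_fiber F
    obtain ⟨h0, hh0⟩ : (F ⁻¹' {c}).Nonempty := (Set.infinite_coe_iff.1 hc).nonempty
    have h1 : (parl S μ (h0.1⁻¹ • z)).Finite := h0.2.2.2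
    have h2 : Set.MapsTo (fun h : {h : G | h⁻¹ • z ∈ Bad} => h.1⁻¹ * h0.1) (F ⁻¹' {c})
        (parl S μ (h0.1⁻¹ • z)) := by
      intro h hh
      have h3 : F h0 = F h := by
        rw [Set.mem_preimage, Set.mem_singleton_iff] at hh0 hh
        rw [hh0, hh]
      have h4 : Quotient.mk (posSetoid hS z) h0.1 = Quotient.mk (posSetoid hS z) h.1 :=
        congrArg (fun p => (p.1 : Quotient (posSetoid hS z))) h3
      have h5 : Quotient.mk (posSetoid hS z) (h0.1 * μ⁻¹) =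
          Quotient.mk (posSetoid hS z) (h.1 * μ⁻¹) :=
        congrArg (fun p => (p.2 : Quotient (posSetoid hS z))) h3
      have h6 : S (h0.1⁻¹ • z) (h.1⁻¹ * h0.1) := Quotient.exact h4
      have h7 : S ((h0.1 * μ⁻¹)⁻¹ • z) ((h.1 * μ⁻¹)⁻¹ * (h0.1 * μ⁻¹)) := Quotient.exact h5
      rw [mul_inv_rev, inv_inv, mul_inv_rev, inv_inv, mul_smul] at h7
      refine ⟨h6, ?_⟩
      change S (μ • h0.1⁻¹ • z) (μ * (h.1⁻¹ * h0.1) * μ⁻¹)
      simpa only [mul_assoc] using h7
    have h3 : Set.InjOn (fun h : {h : G | h⁻¹ • z ∈ Bad} => h.1⁻¹ * h0.1) (F ⁻¹' {c}) := by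
      intro a _ b _ hab
      have h4 : a.1⁻¹ * h0.1 = b.1⁻¹ * h0.1 := hab
      exact Subtype.ext (inv_injective (mul_right_cancel h4))
    exact (Set.infinite_of_injOn_mapsTo h3 h2 (Set.infinite_coe_iff.1 hc)) h1

end Pool.Agent.Lib.MP_90732c_al.Cx.H31
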