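import Mathlib

/-! SEL: selection of pairs in a group of exponent `n`. -/

set_option autoImplicit false

namespace Pool.Agent.Lib.MP_90732c_al.Cx.H31

variable {G : Type} [Group G]

/-- The position `b_i` of the pair `k, k'`: `(k μ)^i`. -/
def bb (μ k : G) (i : ℕ) : G := (k * μ) ^ i

/-- The position `a_i` of the pair `k, k'`: `(k' μ)^i (k μ)⁻¹`. -/
def aa (μ k k' : G) (i : ℕ) : G := (k' * μ) ^ i * (k * μ)⁻¹

/-- The partial sums of the thresholds. -/
def cum (n R : ℕ) : ℕ → ℕ
  | 0 => 1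
  | i + 1 => cum n R i + (4 * n * R * cum n R i + 1)

/-- The thresholds. -/
def thr (n R i : ℕ) : ℕ := 4 * n * R * cum n R i + 1

/-- The number of elements needed for the selection of `R` pairs. -/
def selN (n R : ℕ) : ℕ := thr n R n

lemma cum_eq (n R : ℕ) (j : ℕ) : cum n R j = 1 + ∑ i ∈ Finset.range j, thr n R i := by
  induction j with
  | zero => simp [cum]
  | succ j ih =>
    rw [Finset.sum_range_succ, ← add_assoc, ← ih]
    rfl

lemma sum_thr_le (n R j : ℕ) : (∑ i ∈ Finset.Ico 2 j, thr n R i) + 1 ≤ cum n R j := by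
  rw [cum_eq, add_comm]
  have : ∑ i ∈ Finset.Ico 2 j, thr n R i ≤ ∑ i ∈ Finset.range j, thr n R i := by
    apply Finset.sum_le_sum_of_subset
    intro i hi
    simp only [Finset.mem_Ico, Finset.mem_range] at hi ⊢
    exact hi.2
  omega

omit [Group G] in
open Classical in
/-- Avoiding finitely many small exceptional sets. -/
lemma exists_avoid (V X : Finset G) (j : ℕ) (T : ℕ → ℕ) (Bad : G → ℕ → G → Prop)
    (Eqb : G → G → Prop)
    (h1 : ∀ x ∈ X, ∀ i ∈ Finset.Ico 2 j, (V.filter fun k => Bad x i k).card ≤ T i)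
    (h2 : ∀ x ∈ X, (V.filter fun k => Eqb x k).card ≤ 1)
    (hV : X.card * ((∑ i ∈ Finset.Ico 2 j, T i) + 1) < V.card) :
    ∃ k ∈ V, ∀ x ∈ X, (∀ i, 2 ≤ i → i < j → ¬ Bad x i k) ∧ ¬ Eqb x k := by
  set W : Finset G := X.biUnion fun x =>
    ((Finset.Ico 2 j).biUnion fun i => V.filter fun k => Bad x i k) ∪
      V.filter fun k => Eqb x k with hW
  have hWc : W.card ≤ X.card * ((∑ i ∈ Finset.Ico 2 j, T i) + 1) := by
    rw [hW]
    refine Finset.card_biUnion_le_card_mul _ _ _ ?_
    intro x hx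
    refine (Finset.card_union_le _ _).trans ?_
    refine add_le_add ?_ (h2 x hx)
    refine Finset.card_biUnion_le.trans ?_
    exact Finset.sum_le_sum fun i hi => h1 x hx i hi
  obtain ⟨k, hkV, hkW⟩ := Finset.exists_mem_notMem_of_card_lt_card (hWc.trans_lt hV)
  refine ⟨k, hkV, fun x hx => ⟨fun i hi1 hi2 hb => hkW ?_, fun he => hkW ?_⟩⟩
  · rw [hW, Finset.mem_biUnion]
    refine ⟨x, hx, Finset.mem_union_left _ ?_⟩
    rw [Finset.mem_biUnion]
    exact ⟨i, Finset.mem_Ico.2 ⟨hi1, hi2⟩, Finset.mem_filter.2 ⟨hkV, hb⟩⟩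
  · rw [hW, Finset.mem_biUnion]
    exact ⟨x, hx, Finset.mem_union_right _ (Finset.mem_filter.2 ⟨hkV, he⟩)⟩

open Classical in
/-- The positions `a_i`, `b_i`, `1 ≤ i < j`, of a pair. -/
noncomputable def posn (μ k k' : G) (j : ℕ) : Finset G :=
  ((Finset.Ico 1 j).image fun i => aa μ k k' i) ∪ (Finset.Ico 1 j).image fun i => bb μ k i

lemma posn_card_le (μ k k' : G) (j : ℕ) : (posn μ k k' j).card ≤ 2 * j := by
  classical
  unfold posn
  refine (Finset.card_union_le _ _).trans ?_
  have h1 : ((Finset.Ico 1 j).image fun i => aa μ k k' i).card ≤ j := by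
    refine Finset.card_image_le.trans ?_
    simp
  have h2 : ((Finset.Ico 1 j).image fun i => bb μ k i).card ≤ j := by
    refine Finset.card_image_le.trans ?_
    simp
  omega

lemma aa_mem_posn (μ k k' : G) {i j : ℕ} (h1 : 1 ≤ i) (h2 : i < j) :
    aa μ k k' i ∈ posn μ k k' j := by
  classical
  exact Finset.mem_union_left _ (Finset.mem_image.2 ⟨i, Finset.mem_Ico.2 ⟨h1, h2⟩, rfl⟩)

lemma bb_mem_posn (μ k k' : G) {i j : ℕ} (h1 : 1 ≤ i) (h2 : i < j) :
    bb μ k i ∈ posn μ k k' j := by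
  classical
  exact Finset.mem_union_right _ (Finset.mem_image.2 ⟨i, Finset.mem_Ico.2 ⟨h1, h2⟩, rfl⟩)

lemma mem_posn {μ k k' x : G} {j : ℕ} :
    x ∈ posn μ k k' j ↔ ∃ i, 1 ≤ i ∧ i < j ∧ (x = aa μ k k' i ∨ x = bb μ k i) := by
  classical
  unfold posn
  simp only [Finset.mem_union, Finset.mem_image, Finset.mem_Ico]
  constructor
  · rintro (⟨i, hi, rfl⟩ | ⟨i, hi, rfl⟩)
    · exact ⟨i, hi.1, hi.2, Or.inl rfl⟩
    · exact ⟨i, hi.1, hi.2, Or.inr rfl⟩
  · rintro ⟨i, h1, h2, rfl | rfl⟩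
    · exact Or.inl ⟨i, ⟨h1, h2⟩, rfl⟩
    · exact Or.inr ⟨i, ⟨h1, h2⟩, rfl⟩

/-- The pair `k, k'` avoids the set `X` of positions. -/
def Avoids (E : G → G → Prop) (μ k k' : G) (j : ℕ) (x : G) : Prop :=
  (∀ i, 2 ≤ i → i < j → ¬ E (aa μ k k' i) x ∧ ¬ E (bb μ k i) x) ∧
    aa μ k k' 1 ≠ x ∧ bb μ k 1 ≠ x

/-- **SEL.** -/
theorem sel {n : ℕ} (hn : 2 ≤ n) (hexp : ∀ g : G, g ^ n = 1) (R : ℕ) (μ : G)
    {E : G → G → Prop} (hE : Equivalence E) (U : Finset G)
    (hEU : ∀ k ∈ U, ∀ k' ∈ U, ∀ k'' ∈ U, ∀ i, 2 ≤ i → i < n →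
      E (aa μ k k' i) (aa μ k k'' i) → E (bb μ k' i) (bb μ k'' i))
    (hU : selN n R ≤ U.card) :
    ∃ j, 2 ≤ j ∧ j ≤ n ∧ ∃ p : Fin R → G × G,
      (∀ m, (p m).1 ∈ U ∧ (p m).2 ∈ U ∧ E (bb μ (p m).1 j) (bb μ (p m).2 j)) ∧
      ∀ m' m, m' < m → ∀ x ∈ posn μ (p m').1 (p m').2 j, Avoids E μ (p m).1 (p m).2 j x := by
  classical
  let P : ℕ → Prop := fun j => 2 ≤ j ∧ ∃ x, thr n R j ≤ (U.filter fun k => E (bb μ k j) x).card
  have hP : ∃ j, P j := by
    refine ⟨n, hn, 1, ?_⟩
    have : (U.filter fun k => E (bb μ k n) 1) = U := by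
      apply Finset.filter_true_of_mem
      intro k _
      unfold bb
      rw [hexp]
      exact hE.refl 1
    rw [this]
    exact hU
  set j := Nat.find hP with hj
  obtain ⟨hj2, x0, hx0⟩ := Nat.find_spec hP
  rw [← hj] at hj2 hx0
  have hjn : j ≤ n := Nat.find_min' hP (by
    refine ⟨hn, 1, ?_⟩
    have : (U.filter fun k => E (bb μ k n) 1) = U := by
      apply Finset.filter_true_of_mem
      intro k _
      unfold bb
      rw [hexp]
      exact hE.refl 1
    rw [this]
    exact hU)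
  have hmin : ∀ i, 2 ≤ i → i < j → ∀ x, (U.filter fun k => E (bb μ k i) x).card ≤ thr n R i := by
    intro i hi hij x
    by_contra hc
    push Not at hc
    exact Nat.find_min hP hij ⟨hi, x, hc.le⟩
  set V : Finset G := U.filter fun k => E (bb μ k j) x0 with hV
  have hVU : V ⊆ U := Finset.filter_subset _ _
  have hbig : ∀ X : Finset G, X.card ≤ 2 * n * R →
      X.card * ((∑ i ∈ Finset.Ico 2 j, thr n R i) + 1) < V.card := by
    intro X hX
    refine lt_of_lt_of_le ?_ hx0
    have h1 := sum_thr_le n R j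
    calc X.card * ((∑ i ∈ Finset.Ico 2 j, thr n R i) + 1)
        ≤ (2 * n * R) * cum n R j := Nat.mul_le_mul hX h1
      _ < thr n R j := by
        unfold thr
        have : 2 * n * R * cum n R j ≤ 4 * n * R * cum n R j := by
          have := Nat.zero_le (n * R * cum n R j)
          nlinarith
        omega
  have hstep : ∀ X : Finset G, X.card ≤ 2 * n * R →
      ∃ k ∈ V, ∃ k' ∈ V, ∀ x ∈ X, Avoids E μ k k' j x := by
    intro X hX
    obtain ⟨k, hk, hkX⟩ := exists_avoid V X j (thr n R) (fun x i k => E (bb μ k i) x)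
      (fun x k => bb μ k 1 = x) (by
        intro x _ i hi
        rw [Finset.mem_Ico] at hi
        refine le_trans (Finset.card_le_card ?_) (hmin i hi.1 hi.2 x)
        exact Finset.filter_subset_filter _ hVU) (by
        intro x _
        rw [Finset.card_le_one]
        intro a ha b hb
        rw [Finset.mem_filter] at ha hb
        have h1 := ha.2.trans hb.2.symm
        unfold bb at h1
        simpa using h1) (hbig X hX)
    obtain ⟨k', hk', hkX'⟩ := exists_avoid V X j (thr n R) (fun x i k' => E (aa μ k k' i) x)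
      (fun x k' => aa μ k k' 1 = x) (by
        intro x _ i hi
        rw [Finset.mem_Ico] at hi
        by_cases hne : (V.filter fun k' => E (aa μ k k' i) x).Nonempty
        · obtain ⟨k0, hk0⟩ := hne
          rw [Finset.mem_filter] at hk0
          refine le_trans (Finset.card_le_card ?_) (hmin i hi.1 hi.2 (bb μ k0 i))
          intro k1 hk1
          rw [Finset.mem_filter] at hk1 ⊢
          exact ⟨hVU hk1.1, hEU k (hVU hk) k1 (hVU hk1.1) k0 (hVU hk0.1) i hi.1
            (hi.2.trans_le hjn) (hE.trans hk1.2 (hE.symm hk0.2))⟩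
        · rw [Finset.not_nonempty_iff_eq_empty] at hne
          rw [hne]
          simp) (by
        intro x _
        rw [Finset.card_le_one]
        intro a ha b hb
        rw [Finset.mem_filter] at ha hb
        have h1 := ha.2.trans hb.2.symm
        unfold aa at h1
        simpa using h1) (hbig X hX)
    exact ⟨k, hk, k', hk', fun x hx => ⟨fun i hi1 hi2 =>
      ⟨(hkX' x hx).1 i hi1 hi2, (hkX x hx).1 i hi1 hi2⟩, (hkX' x hx).2, (hkX x hx).2⟩⟩
  have key : ∀ M ≤ R, ∃ p : ℕ → G × G, (∀ m < M, (p m).1 ∈ V ∧ (p m).2 ∈ V) ∧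
      ∀ m < M, ∀ m' < m, ∀ x ∈ posn μ (p m').1 (p m').2 j, Avoids E μ (p m).1 (p m).2 j x := by
    intro M
    induction M with
    | zero => exact fun _ => ⟨fun _ => 1, by simp, by simp⟩
    | succ M ih =>
      intro hM
      obtain ⟨p, hp1, hp2⟩ := ih (by omega)
      set X : Finset G := (Finset.range M).biUnion fun m => posn μ (p m).1 (p m).2 j with hX
      have hXc : X.card ≤ 2 * n * R := by
        refine (Finset.card_biUnion_le_card_mul _ _ (2 * j) fun m _ =>
          posn_card_le _ _ _ _).trans ?_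
        rw [Finset.card_range]
        calc M * (2 * j) ≤ R * (2 * n) := Nat.mul_le_mul (by omega) (by omega)
          _ = 2 * n * R := by ring
      obtain ⟨k, hk, k', hk', hav⟩ := hstep X hXc
      refine ⟨Function.update p M (k, k'), ?_, ?_⟩
      · intro m hm
        rcases Nat.lt_succ_iff_lt_or_eq.1 hm with h | h
        · rw [Function.update_of_ne h.ne]
          exact hp1 m h
        · subst h
          rw [Function.update_self]
          exact ⟨hk, hk'⟩
      · intro m hm m' hm' x hx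
        rcases Nat.lt_succ_iff_lt_or_eq.1 hm with h | h
        · rw [Function.update_of_ne h.ne]
          rw [Function.update_of_ne (hm'.trans h).ne] at hx
          exact hp2 m h m' hm' x hx
        · subst h
          rw [Function.update_self]
          rw [Function.update_of_ne hm'.ne] at hx
          exact hav x (Finset.mem_biUnion.2 ⟨m', Finset.mem_range.2 hm', hx⟩)
  obtain ⟨p, hp1, hp2⟩ := key R le_rfl
  refine ⟨j, hj2, hjn, fun m => p m, ?_, ?_⟩
  · intro m
    obtain ⟨h1, h2⟩ := hp1 m m.2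
    refine ⟨hVU h1, hVU h2, ?_⟩
    rw [hV, Finset.mem_filter] at h1 h2
    exact hE.trans h1.2 (hE.symm h2.2)
  · intro m' m hmm x hx
    exact hp2 m m.2 m' hmm x hx

end Pool.Agent.Lib.MP_90732c_al.Cx.H31
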