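import Pool.Agent.Lib.MP_90732c_al.Ab.Defs
import Pool.Agent.Lib.MP_90732c_al.Cx.H31.SelA

/-! PATH: the path from `z` to `μ • z` through a pair. -/

set_option autoImplicit false

namespace Pool.Agent.Lib.MP_90732c_al.Cx.H31

open Pool.Agent.Lib.MP_90732c_al.Ab

variable {G : Type} [Group G] {Y : Type} [MulAction G Y]

lemma aa_one (μ k k' : G) : aa μ k k' 1 = k' * k⁻¹ := by
  unfold aa
  group

lemma bb_one (μ k : G) : bb μ k 1 = k * μ := by
  unfold bb
  group

lemma aa_succ (μ k k' : G) (i : ℕ) : aa μ k k' (i + 1) = k' * (μ * aa μ k k' i) := by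
  unfold aa
  rw [pow_succ']
  group

lemma bb_succ (μ k : G) (i : ℕ) : bb μ k (i + 1) = k * (μ * bb μ k i) := by
  unfold bb
  rw [pow_succ']
  group

/-- The middle move leads from `b_(j-1)` to `a_j`. -/
lemma mid_eq (μ k k' : G) (j : ℕ) (hj : 1 ≤ j) :
    bb μ k' j * (bb μ k j)⁻¹ * bb μ k (j - 1) = aa μ k k' j := by
  obtain ⟨i, rfl⟩ : ∃ i, j = i + 1 := ⟨j - 1, by omega⟩
  unfold aa bb
  rw [Nat.add_sub_cancel, pow_succ (k * μ), mul_inv_rev, mul_assoc, mul_assoc, inv_mul_cancel,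
    mul_one]

lemma IsRel.trans_mul {S : Y → G → Prop} (hS : IsRel S) {z : Y} {g h : G} (h1 : S z g)
    (h2 : S (g • z) h) : S z (h * g) := hS.mul z g h h1 h2

lemma IsRel.back {S : Y → G → Prop} (hS : IsRel S) {z : Y} {g h : G} (h1 : S z (h * g))
    (h2 : S (g • z) h) : S z g := by
  have h3 := hS.inv _ _ h2
  rw [smul_smul] at h3
  have h4 := hS.mul _ _ _ h1 h3
  rwa [inv_mul_cancel_left] at h4

/-- **PATH.** -/
theorem path {S : Y → G → Prop} (hS : IsRel S) (z : Y) (μ k k' : G) (j : ℕ) (hj : 2 ≤ j)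
    (h0 : S z (k' * k⁻¹))
    (ha : ∀ i, 1 ≤ i → i < j → S (aa μ k k' i • z) μ)
    (ha' : ∀ i, 2 ≤ i → i ≤ j → S (aa μ k k' i • z) k'⁻¹)
    (hmid : S (bb μ k (j - 1) • z) (bb μ k' j * (bb μ k j)⁻¹))
    (hb : ∀ i, 1 ≤ i → i + 1 < j → S (bb μ k i • z) μ)
    (hb' : ∀ i, 1 ≤ i → i < j → S (bb μ k i • z) k⁻¹) : S z μ := by
  have hA : ∀ i, 1 ≤ i → i ≤ j → S z (aa μ k k' i) := by
    intro i hi
    induction i, hi using Nat.le_induction with
    | base =>
      intro _
      rw [aa_one]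
      exact h0
    | succ i hi ih =>
      intro hij
      have h1 := hS.mul _ _ _ (ih (by omega)) (ha i hi (by omega))
      have h2 := hS.inv _ _ (ha' (i + 1) (by omega) hij)
      rw [aa_succ, smul_smul, inv_mul_cancel_left, inv_inv] at h2
      have h3 := hS.mul _ _ _ h1 h2
      rwa [aa_succ]
  have hB : ∀ i, 1 ≤ i → i < j → S z (bb μ k (j - i)) := by
    intro i hi
    induction i, hi using Nat.le_induction with
    | base =>
      intro _
      refine IsRel.back hS (h := bb μ k' j * (bb μ k j)⁻¹) ?_ hmid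
      rw [mid_eq μ k k' j (by omega)]
      exact hA j (by omega) le_rfl
    | succ i hi ih =>
      intro hij
      have h1 := ih (by omega)
      have h2 := hS.mul _ _ _ h1 (hb' (j - i) (by omega) (by omega))
      have h3 : j - i = (j - (i + 1)) + 1 := by omega
      rw [h3, bb_succ, inv_mul_cancel_left] at h2
      exact IsRel.back hS h2 (hb (j - (i + 1)) (by omega) (by omega))
  have h1 := hB (j - 1) (by omega) (by omega)
  have h2 : j - (j - 1) = 1 := by omega
  rw [h2] at h1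
  have h3 := hS.mul _ _ _ h1 (hb' 1 le_rfl (by omega))
  rwa [bb_one, inv_mul_cancel_left] at h3

end Pool.Agent.Lib.MP_90732c_al.Cx.H31
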