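import Pool.Agent.Lib.MP_90732c_al.Cx.Interfaces
import Pool.Agent.Lib.MP_90732c_al.Cx.H31.PathA
import Pool.Agent.Lib.MP_90732c_al.Cx.H31.ParA

/-! The statements SEL, PTH and PAR of the board. -/

set_option autoImplicit false

open MeasureTheory
open scoped ENNReal Pointwise

namespace Pool.Agent.Lib.MP_90732c_al.Cx.H31

open Pool.Agent.Lib.MP_90732c_al.Ab

theorem pth : PthStatement := by
  intro G _ Z _ S₂ hS z μ k k' j hj h0 ha ha' hm hb hb'
  refine path hS z μ k k' j hj h0 ha ?_ hm (fun i h1 h2 => hb i h1 (by omega)) hb'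
  intro i h1 h2
  obtain ⟨l, rfl⟩ : ∃ l, i = l + 1 := ⟨i - 1, by omega⟩
  exact ha' l (by omega) (by omega)

theorem par' : ParStatement := by
  intro G _ _ _ Y _ _ ν _ S hS B M hB _ hfew
  rw [ae_all_iff]
  intro μ
  refine par hS.mp hS.rel hS.meas B hB M ?_ μ
  filter_upwards [hfew] with y hy s h1 h2
  classical
  have h3 := hy (s.image fun x => x⁻¹) (by
    intro x hx
    obtain ⟨h, hh, rfl⟩ := Finset.mem_image.1 hx
    exact h1 h hh) (by
    intro x hx x' hx' hE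
    obtain ⟨h, hh, rfl⟩ := Finset.mem_image.1 hx
    obtain ⟨h', hh', rfl⟩ := Finset.mem_image.1 hx'
    unfold Eqv at hE
    rw [inv_inv] at hE
    rw [h2 h hh h' hh' hE])
  rwa [Finset.card_image_of_injective _ inv_injective] at h3

theorem foot_mem {G : Type} [Group G] {μ k k' x : G} {i₀ j : ℕ} :
    x ∈ foot μ k k' i₀ j ↔ ∃ i, i₀ ≤ i ∧ i < j ∧ (x = aa μ k k' i ∨ x = bb μ k i) := by
  classical
  unfold foot
  simp only [Finset.mem_union, Finset.mem_image, Finset.mem_Ico]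
  constructor
  · rintro (⟨i, hi, rfl⟩ | ⟨i, hi, rfl⟩)
    · exact ⟨i, hi.1, hi.2, Or.inr rfl⟩
    · exact ⟨i, hi.1, hi.2, Or.inl rfl⟩
  · rintro ⟨i, h1, h2, rfl | rfl⟩
    · exact Or.inr ⟨i, ⟨h1, h2⟩, rfl⟩
    · exact Or.inl ⟨i, ⟨h1, h2⟩, rfl⟩

theorem sel' : SelStatement := by
  intro n R hn
  refine ⟨selN n R, fun G _ hexp μ E U hU hEU => ?_⟩
  obtain ⟨j, hj2, hjn, p, hp1, hp2⟩ := sel hn hexp R μ E.iseqv U
    (fun k hk k₁ hk₁ k₂ hk₂ i _ hi h => hEU k hk k₁ hk₁ k₂ hk₂ i hi h) hU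
  refine ⟨j, hj2, hjn, fun m => (p m).1, fun m => (p m).2, fun m => ⟨(hp1 m).1, (hp1 m).2.1⟩,
    fun m => (hp1 m).2.2, ?_, ?_⟩
  · intro m m' hmm x hx x' hx' hE
    rw [foot_mem] at hx hx'
    have h3 := hp2 m' m hmm x' (mem_posn.2 hx')
    obtain ⟨i, h1, h2, rfl | rfl⟩ := hx
    · exact (h3.1 i h1 h2).1 hE
    · exact (h3.1 i h1 h2).2 hE
  · intro m m' hmm
    rw [Finset.disjoint_left]
    intro x hx hx'
    rw [foot_mem] at hx hx'
    have h3 := hp2 m' m hmm x (mem_posn.2 hx')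
    obtain ⟨i, h1, h2, h4⟩ := hx
    rcases Nat.lt_or_ge i 2 with h5 | h5
    · obtain rfl : i = 1 := by omega
      rcases h4 with h4 | h4
      · exact h3.2.1 h4.symm
      · exact h3.2.2 h4.symm
    · rcases h4 with h4 | h4
      · exact (h3.1 i h5 h2).1 (by rw [← h4])
      · exact (h3.1 i h5 h2).2 (by rw [← h4])

end Pool.Agent.Lib.MP_90732c_al.Cx.H31
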